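import Pool.Agent.V5helper87.ZM.Stm

set_option autoImplicit false

open scoped Matrix Pointwise

namespace Pool.Agent.V5helper11.ZM

open Pool.Agent.H919R4.ZS Pool.Agent.TH38.CX Pool.Agent.TH38.ZT Pool.Agent.V5helper87.ZM

lemma augm_incl {G : Type} [Group G] (C : Subgroup G) (a : MonoidAlgebra ℤ C) :
    augm G (incl C a) = augm C a := by
  refine MonoidAlgebra.induction_linear a ?_ ?_ ?_
  · rw [map_zero, map_zero, map_zero]
  · intro x y hx hy
    rw [map_add, map_add, map_add, hx, hy]
  · intro g r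
    rw [Cond.incl_single]
    change (MonoidAlgebra.lift ℤ ℤ G 1) (MonoidAlgebra.single (g : G) r) =
      (MonoidAlgebra.lift ℤ ℤ C 1) (MonoidAlgebra.single g r)
    rw [MonoidAlgebra.lift_single, MonoidAlgebra.lift_single]
    rfl

/-- the condition used to continue a chain map -/
def GoodC {G : Type} [Group G] (C : Subgroup G) (X : FinRes G) (Y : FinRes C) :
    ∀ i, Matrix (Fin (Y.n i)) (Fin (X.n i)) (MonoidAlgebra ℤ G) → Prop
  | 0 => fun F => ∀ k, eps X (F k) = Y.aug k
  | i + 1 => fun F => (Y.d (i + 1)).map (incl C) * F * X.d i = 0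

theorem t_CHM : S_CHM := by
  intro G _ C X Y
  obtain ⟨x0, hx0⟩ := X.surj
  change eps X x0 = 1 at hx0
  obtain ⟨f, hf0, hf⟩ := dep_seq
    (α := fun i => {F : Matrix (Fin (Y.n i)) (Fin (X.n i)) (MonoidAlgebra ℤ G) // GoodC C X Y i F})
    (fun i F F' => (Y.d i).map (incl C) * F.1 = F'.1 * X.d i)
    ⟨fun k => Y.aug k • x0, fun k => by
      rw [eps_zsmul, hx0, mul_one]⟩ (by
      rintro i ⟨F, hF⟩
      obtain ⟨F', hF'⟩ : ∃ s : Matrix (Fin (Y.n (i + 1))) (Fin (X.n (i + 1))) (MonoidAlgebra ℤ G),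
          s * X.d i = (Y.d i).map (incl C) * F := by
        cases i with
        | zero =>
          refine zrows_zero X _ fun k => ?_
          rw [Matrix.mul_apply_eq_vecMul, eps_vecMul]
          have h1 : eps Y (Y.d 0 k) = 0 := by
            have := eps_d Y (Pi.single k 1)
            rwa [Matrix.single_one_vecMul] at this
          rw [← h1]
          refine Finset.sum_congr rfl fun j _ => ?_
          rw [hF j, Matrix.map_apply, augm_incl]
        | succ i => exact zrows_succ X i _ hF
      refine ⟨⟨F', ?_⟩, hF'.symm⟩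
      change (Y.d (i + 1)).map (incl C) * F' * X.d i = 0
      rw [Matrix.mul_assoc, hF', ← Matrix.mul_assoc, dd, Matrix.zero_mul])
  refine ⟨fun i => (f i).1, ?_, hf⟩
  exact (f 0).2

end Pool.Agent.V5helper11.ZM
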