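import Pool.Agent.V5helper87.ZM.Stm

set_option autoImplicit false

open scoped Matrix Pointwise ENNReal

namespace Pool.Agent.V5helper11.ZM

open Pool.Agent.H919R4.ZS Pool.Agent.TH38.CX Pool.Agent.TH38.ZT Pool.Agent.V5helper87.ZM

noncomputable section

variable {G : Type} [Group G] (C : Subgroup G)

/-- right multiplication by `Y` moves supports by a finite set -/
def PP (Y : L2 G →L[ℂ] L2 G) : Prop :=
  ∃ S : Set G, S.Finite ∧ ∀ (X' : L2 G →L[ℂ] L2 G) (T : Set G),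
    (∀ g : G, (∀ s ∈ T, g * s⁻¹ ∉ C) → Cond.cond C (X' * lregL g⁻¹) = 0) →
    ∀ g : G, (∀ s ∈ T * S, g * s⁻¹ ∉ C) → Cond.cond C (X' * Y * lregL g⁻¹) = 0

lemma lregL_mul (g h : G) : (lregL g : L2 G →L[ℂ] L2 G) * lregL h = lregL (g * h) :=
  ((lregHom G).map_mul g h).symm

lemma lregL_one : (lregL (1 : G) : L2 G →L[ℂ] L2 G) = 1 := (lregHom G).map_one

lemma PP_gen (c : ℂ) (h : G) : PP C (c • lregL h) := by
  refine ⟨{h}, Set.finite_singleton h, fun X' T hX' g hg => ?_⟩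
  have h1 : X' * (c • lregL h) * lregL g⁻¹ = c • (X' * lregL ((g * h⁻¹)⁻¹)) := by
    rw [mul_smul_comm, smul_mul_assoc, mul_assoc, lregL_mul, mul_inv_rev, inv_inv]
  rw [h1, map_smul, hX' (g * h⁻¹), smul_zero]
  intro s hs
  have h2 := hg (s * h) (Set.mul_mem_mul hs rfl)
  rw [mul_inv_rev] at h2
  rwa [mul_assoc]

lemma PP_zero : PP C (0 : L2 G →L[ℂ] L2 G) := by
  refine ⟨∅, Set.finite_empty, fun X' T _ g _ => ?_⟩
  rw [mul_zero, zero_mul, map_zero]

lemma PP_one : PP C (1 : L2 G →L[ℂ] L2 G) := by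
  refine ⟨{1}, Set.finite_singleton 1, fun X' T hX' g hg => ?_⟩
  rw [mul_one]
  refine hX' g fun s hs => ?_
  have h2 := hg (s * 1) (Set.mul_mem_mul hs rfl)
  rwa [mul_one] at h2

lemma PP_add {Y Y' : L2 G →L[ℂ] L2 G} (h : PP C Y) (h' : PP C Y') : PP C (Y + Y') := by
  obtain ⟨S, hS, H⟩ := h
  obtain ⟨S', hS', H'⟩ := h'
  refine ⟨S ∪ S', hS.union hS', fun X' T hX' g hg => ?_⟩
  rw [mul_add, add_mul, map_add, H X' T hX' g, H' X' T hX' g, add_zero]
  · intro s hs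
    exact hg s (Set.mul_subset_mul_left Set.subset_union_right hs)
  · intro s hs
    exact hg s (Set.mul_subset_mul_left Set.subset_union_left hs)

lemma PP_neg {Y : L2 G →L[ℂ] L2 G} (h : PP C Y) : PP C (-Y) := by
  obtain ⟨S, hS, H⟩ := h
  refine ⟨S, hS, fun X' T hX' g hg => ?_⟩
  rw [mul_neg, neg_mul, map_neg, H X' T hX' g hg, neg_zero]

lemma PP_mul {Y Y' : L2 G →L[ℂ] L2 G} (h : PP C Y) (h' : PP C Y') : PP C (Y * Y') := by
  obtain ⟨S, hS, H⟩ := h
  obtain ⟨S', hS', H'⟩ := h'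
  refine ⟨S * S', hS.mul hS', fun X' T hX' g hg => ?_⟩
  rw [← mul_assoc X' Y Y']
  refine H' (X' * Y) (T * S) (fun g' hg' => H X' T hX' g' hg') g ?_
  rw [mul_assoc]
  exact hg

lemma PP_mem (Y : Op G) (hY : Y ∈ groupRing G) : PP C (show L2 G →L[ℂ] L2 G from Y) := by
  refine Subring.closure_induction (p := fun Y _ => PP C (show L2 G →L[ℂ] L2 G from Y))
    ?_ ?_ ?_ ?_ ?_ ?_ hY
  · rintro _ ⟨c, h, rfl⟩
    exact PP_gen C c h
  · exact PP_zero C
  · exact PP_one C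
  · intro x y _ _ hx hy
    exact PP_add C hx hy
  · intro x _ hx
    exact PP_neg C hx
  · intro x y _ _ hx hy
    exact PP_mul C hx hy

theorem t_DEN : S_DEN := by
  intro G _ C x ε hε
  have hx : (Subtype.val (p := fun y => y ∈ redCstar G) x : Op G) ∈
    closure ((groupRing G : Subring (Op G)) : Set (Op G)) := Subtype.property x
  obtain ⟨y0, hy0, hd⟩ := Metric.mem_closure_iff.1 hx ε hε
  have hy1 : y0 ∈ redCstar G := Subring.le_topologicalClosure (groupRing G) hy0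
  let y : RedC G := ⟨y0, hy1⟩
  refine ⟨y, ?_, ?_⟩
  · rw [norm_redC, map_sub]
    rw [dist_eq_norm] at hd
    exact hd
  · obtain ⟨S, hS, H⟩ := PP_mem C y0 hy0
    refine ⟨S, hS, fun x' T hx' g hg => ?_⟩
    have hL : ∀ g : G, valR (toRed G (sg g)) = lregL g := by
      intro g
      rw [coe_toRed, sg, L_single, one_smul]
    have h1 := H (valR x') T (fun g' hg' => by
      have h2 := hx' g' hg'
      rwa [(valR (G := G)).map_mul, hL] at h2) g hg
    have h3 : valR (x' * y * toRed G (sg g⁻¹)) = valR x' * valR y * lregL g⁻¹ := by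
      rw [(valR (G := G)).map_mul, (valR (G := G)).map_mul, hL]
    rw [h3]
    exact h1

end

end Pool.Agent.V5helper11.ZM
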